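import Pool.Agent.MWGR.StmtsE

set_option autoImplicit false

/-!
# Squad MWGR, row FRL (helper46): labels and the left state are free if `(x, a)` is not rigid
-/

namespace Pool.Agent.MWGR.H46

open Pool.Agent.Helper14_MV Pool.Agent.Helper2_MV Pool.Agent.MVO Pool.Agent.MWL Pool.Agent.MWS
  Pool.Agent.MWH Pool.Agent.MWGR

/-- row FRL -/
theorem frl (hcsp : CspStmt) (hmv2 : Mv2Stmt) (hmv3 : Mv3Stmt) (hsql : SqlStmt)
    (hcmb : CmbStmt) : FrlStmt := by
  intro n η hBG hK k B hok hgm i x a hik hxa hnr H pr haH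
  have hW : CrW η H pr (suf B i (k - i)) x a := by
    have h1 : ∃ j j', i < j ∧ j ≤ k ∧ i < j' ∧ j' ≤ k ∧ a ∈ B j ∧ x ∈ B j' ∧ j ≤ j' := by
      by_contra hcon
      apply hnr
      intro j j' h1 h2 h3 h4 h5 h6
      by_contra h7
      exact hcon ⟨j, j', h1, h2, h3, h4, h5, h6, by omega⟩
    obtain ⟨j, j', hj1, hj2, hj1', hj2', ha, hx, hjj⟩ := h1
    obtain ⟨-, hc2, hc3⟩ := hcsp n η hBG H pr (suf B i (k - i)) x a
    rcases Nat.eq_or_lt_of_le hjj with he | hlt
    · subst he
      have h2 := hc2 (hcmb k B hok hgm i j x a hj1 hj2 hxa hx ha)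
      intro A D _ hO
      exact h2 A D hO
    · have h3 := hsql k i 2 B (fun t => if t = 0 then j else j') (fun t => if t = 0 then a else x)
        hik (by
          intro t ht
          by_cases h0 : t = 0
          · subst h0
            exact ⟨hj1, hj2, ha⟩
          · simp only [if_neg h0]
            exact ⟨hj1', hj2', hx⟩) (by
          intro t ht
          have h0 : t = 0 := by omega
          subst h0
          exact hlt)
      exact hc3 hK h3
  exact ⟨hmv3 n η hBG H pr _ x a haH hW, hmv2 n η hBG H pr _ x a haH hW⟩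

end Pool.Agent.MWGR.H46
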